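import Pool.Agent.P.MP_878f14_gt.HT.Q.Main
import Pool.Agent.P.MP_878f14_gt.HT.D.Final

/-! Every smooth framed Haefliger structure of codimension `n ≥ 2` on a compact set of Hausdorff
dimension less than `n + 3` is null-homotopic. -/

namespace Pool.Agent.Results.MP_878f14_gt.NullHomotopy

open Pool.Agent.P.MP_878f14_gt.HT.Q

theorem result (n : ℕ) (hn : 2 ≤ n) (V : Type) [NormedAddCommGroup V] [NormedSpace ℝ V]
    [FiniteDimensional ℝ V] (S : Set V) (hS : IsCompact S) (hd : dimH S < (n : ENNReal) + 3)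
    (F : Fam n S) (hF : IsStr F) : NullHtp F :=
  null_of_conn (Pool.Agent.P.MP_878f14_gt.HT.D.main hn) hS
    (by rw [Nat.cast_add, Nat.cast_add, add_assoc]; convert hd using 2; norm_num) hF

end Pool.Agent.Results.MP_878f14_gt.NullHomotopy
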