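import Pool.Agent.P.MP_878f14_gt.GaugeA
import Pool.Agent.P.MP_878f14_gt.GaugeB
import Pool.Agent.P.MP_878f14_gt.Sg.Main
import Pool.Agent.P.MP_878f14_gt.Sg.PActMap
import Pool.Agent.P.MP_878f14_gt.Sg.PActPi
import Pool.Agent.P.MP_878f14_gt.Sg.PActU
import Pool.Agent.P.MP_878f14_gt.Sg.PAng
import Pool.Agent.P.MP_878f14_gt.Sg.PArg
import Pool.Agent.P.MP_878f14_gt.Sg.PCol
import Pool.Agent.P.MP_878f14_gt.Sg.PConn
import Pool.Agent.P.MP_878f14_gt.Sg.PCup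
import Pool.Agent.P.MP_878f14_gt.Sg.PCwf
import Pool.Agent.P.MP_878f14_gt.Sg.PDet
import Pool.Agent.P.MP_878f14_gt.Sg.PDir
import Pool.Agent.P.MP_878f14_gt.Sg.PDual
import Pool.Agent.P.MP_878f14_gt.Sg.PEps
import Pool.Agent.P.MP_878f14_gt.Sg.PFace
import Pool.Agent.P.MP_878f14_gt.Sg.PFin
import Pool.Agent.P.MP_878f14_gt.Sg.PFlo
import Pool.Agent.P.MP_878f14_gt.Sg.PGlu
import Pool.Agent.P.MP_878f14_gt.Sg.PInt2
import Pool.Agent.P.MP_878f14_gt.Sg.PLink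
import Pool.Agent.P.MP_878f14_gt.Sg.PMk
import Pool.Agent.P.MP_878f14_gt.Sg.PMkG
import Pool.Agent.P.MP_878f14_gt.Sg.PMon
import Pool.Agent.P.MP_878f14_gt.Sg.PNorm
import Pool.Agent.P.MP_878f14_gt.Sg.POpen
import Pool.Agent.P.MP_878f14_gt.Sg.POrd
import Pool.Agent.P.MP_878f14_gt.Sg.PPar
import Pool.Agent.P.MP_878f14_gt.Sg.PPerf
import Pool.Agent.P.MP_878f14_gt.Sg.PPos
import Pool.Agent.P.MP_878f14_gt.Sg.PSd2
import Pool.Agent.P.MP_878f14_gt.Sg.PSmp
import Pool.Agent.P.MP_878f14_gt.Sg.PStk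
import Pool.Agent.P.MP_878f14_gt.Sg.PStkL
import Pool.Agent.P.MP_878f14_gt.Sg.PThick
import Pool.Agent.P.MP_878f14_gt.Sg.PTor1
import Pool.Agent.P.MP_878f14_gt.Sg.PTor2
import Pool.Agent.P.MP_878f14_gt.Sg.PTr
import Pool.Agent.P.MP_878f14_gt.Sg.PTwo
import Pool.Agent.P.MP_878f14_gt.Sg.PTwoU
import Pool.Agent.P.MP_878f14_gt.Sg.PWed
import Pool.Agent.P.MP_878f14_gt.Sg.PZig

/-!
Real Pontryagin classes of normal bundles of smooth Haefliger structures of codimension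
`q = 2l + m`: an invariant polynomial of degree `n + 1` that does not vanish at a rotation with
`r` nonzero speeds gives a nonzero class as soon as `n + 1 + min r ((n + 1) / 4) ≤ q`.
-/

namespace Pool.Agent.Results.MP_878f14_gt.PontryaginRange

open Pool.Agent.P.MP_878f14_gt Pool.Agent.P.MP_878f14_gt.Sg

theorem result (l m n : ℕ) (P : (Fin (n + 1) → En l m) → ℝ) (hP : IsInvPoly P)
    (x : Fin l → ℝ) (X : En l m) (hX : IsRot x X) (hx : P (fun _ => X) ≠ 0)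
    (hq : n + 1 + min (Finset.univ.filter fun j => x j ≠ 0).card ((n + 1) / 4) ≤ 2 * l + m) :
    ∃ (d : ℕ) (U : Set (Fin d → ℝ)), IsOpen U ∧ NonzeroClass U P := by
  have e : X = rot m x := ContinuousLinearMap.ext hX
  subst e
  have hMk := p_mk p_ang p_arg
  have hMkG := p_mkG p_ang p_arg
  have hDir := p_dir hMk
  have hStkL := p_stkL p_smp p_open (p_stk p_smp)
  exact Out.bridge hP (out_of_rot p_prod
    (p_twoU p_two (p_link hMk hMkG hDir p_flo) (p_perf hMkG) hMk hMkG hDir)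
    (p_tor1 p_blk0 p_peel) (p_tor2 p_peel hMk) (p_actU p_ang) p_actPi p_actMap p_tr p_mon p_cup
    p_norm (p_dual p_face) (p_pos p_face p_sd2 p_col) p_fin
    (p_geo p_open (p_par p_open) (p_thick p_open) p_ord p_eps (p_conn p_open) pGaugeA pGaugeB
      p_cwf (p_glu p_open p_smp p_wed) (p_zig p_wed) (p_int2 p_open p_smp p_det hStkL) hStkL)
    l m n (toML P hP) hP.2.1 (fun g X => hP.2.2 g.val g.inv g.val_inv g.inv_val X) x hx hq)

end Pool.Agent.Results.MP_878f14_gt.PontryaginRange
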