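import Pool.Agent.P.MP_878f14_gt.S6.Main
import Pool.Agent.P.MP_878f14_gt.S6.Low
import Pool.Agent.P.MP_878f14_gt.HT.Q.Main
import Pool.Agent.P.MP_878f14_gt.HT.D.Final

/-! The suspension of the linear action of the rotation group of `ℝ ^ q` is null-homotopic for
every `q ≤ 6`. -/

namespace Pool.Agent.Results.MP_878f14_gt.RotationUpToSix

open Pool.Agent.P.MP_878f14_gt Pool.Agent.P.MP_878f14_gt.HT.Q

theorem result (q : ℕ) (hq : q ≤ 6) : NullHtp (susp q) := by
  interval_cases q
  · exact S6.null_SO0
  · exact S6.null_SO1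
  · exact S6.null_low (wfill_st (HT.D.main (by norm_num))) S6.dim_SO2
  · exact S6.null_low (wfill_st (HT.D.main (by norm_num))) S6.dim_SO3
  · exact S6.null_low (wfill_st (HT.D.main (by norm_num))) S6.dim_SO4
  · exact susp_of_conn (HT.D.main (by norm_num))
  · exact S6.null_SO6 (wfill_st (HT.D.main (by norm_num)))

end Pool.Agent.Results.MP_878f14_gt.RotationUpToSix
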